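import Pool.Agent.N520.RO.Stm2

/-!
Project RO, part DISC: discreteness of the holonomy group.
-/

set_option autoImplicit false

open Set Filter Topology
open Pool.Agent.W689.Mk

namespace Pool.Agent.N713.RO

open Pool.Agent.N520.RO

lemma aff_inj {E : Type} [NormedAddCommGroup E] [NormedSpace ℝ E] [FiniteDimensional ℝ E]
    {g h : E ≃ᵃ[ℝ] E} (e : aff g = aff h) : g = h := by
  have h0 : g 0 = h 0 := by
    have h1 := congrArg (fun T : (E × ℝ) →L[ℝ] (E × ℝ) => (T (0, 1)).1) e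
    simpa [aff_apply] using h1
  have h1 : ∀ v, g.linear v = h.linear v := by
    intro v
    have h2 := congrArg (fun T : (E × ℝ) →L[ℝ] (E × ℝ) => (T (v, 0)).1) e
    simpa [aff_apply] using h2
  ext v
  rw [lin_zero g v, lin_zero h v, h1, h0]

theorem t_disc : S_DISC := by
  intro X Γ E _ _ _ _ _ _ _ _ _ dev hol hA hinj
  have hoe : IsOpenEmbedding dev := hA.loc.isOpenEmbedding_of_injective hinj
  obtain ⟨x0⟩ := (inferInstance : Nonempty X)
  set q0 := dev x0 with hq0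
  have hrange : Set.range dev ∈ 𝓝 q0 := hoe.isOpen_range.mem_nhds ⟨x0, rfl⟩
  obtain ⟨r, hr, hball⟩ := Metric.nhds_basis_closedBall.mem_iff.1 hrange
  set K : Set X := dev ⁻¹' Metric.closedBall q0 r with hK
  have hKc : IsCompact K := by
    rw [hoe.isInducing.isCompact_iff, hK, Set.image_preimage_eq_of_subset hball]
    exact isCompact_closedBall q0 r
  have hx0K : x0 ∈ K := by
    rw [hK, Set.mem_preimage, ← hq0]
    exact Metric.mem_closedBall_self hr.le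
  have hfin := hA.pd K hKc
  set Φ : Set Γ := {γ : Γ | ∃ x ∈ K, γ • x ∈ K} with hΦ
  set S : Set ℝ := (fun γ => ‖aff (hol γ) - 1‖) '' {γ ∈ Φ | hol γ ≠ 1} with hS
  have hSfin : S.Finite := (hfin.subset fun γ hγ => hγ.1).image _
  have h0S : (0 : ℝ) ∉ S := by
    rintro ⟨γ, ⟨-, hγ⟩, h⟩
    apply hγ
    have h1 : aff (hol γ) = 1 := sub_eq_zero.1 (norm_eq_zero.1 h)
    exact aff_inj (h1.trans aff_one.symm)
  obtain ⟨ε1, hε1, hε1S⟩ := Metric.mem_nhds_iff.1 (hSfin.isClosed.isOpen_compl.mem_nhds h0S)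
  set ε2 : ℝ := r / (‖((q0, 1) : E × ℝ)‖ + 1) with hε2
  have hε2pos : 0 < ε2 := by positivity
  refine ⟨min ε1 ε2, lt_min hε1 hε2pos, ?_⟩
  intro γ hγ
  by_contra hne
  have h1 : ‖aff (hol γ) - 1‖ < ε1 := hγ.trans_le (min_le_left _ _)
  have h2 : ‖aff (hol γ) - 1‖ < ε2 := hγ.trans_le (min_le_right _ _)
  have h3 : ‖hol γ q0 - q0‖ ≤ r := by
    have e1 : (aff (hol γ) - 1) (q0, 1) = (hol γ q0 - q0, 0) := by
      rw [sub_apply, aff_apply]
      rw [lin_zero (hol γ) q0]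
      refine Prod.ext ?_ ?_
      · simp
      · simp
    calc ‖hol γ q0 - q0‖ ≤ ‖((hol γ q0 - q0, 0) : E × ℝ)‖ := norm_fst_le (hol γ q0 - q0, (0 : ℝ))
      _ = ‖(aff (hol γ) - 1) (q0, 1)‖ := by rw [e1]
      _ ≤ ‖aff (hol γ) - 1‖ * ‖((q0, 1) : E × ℝ)‖ := ContinuousLinearMap.le_opNorm _ _
      _ ≤ ε2 * (‖((q0, 1) : E × ℝ)‖ + 1) :=
          mul_le_mul h2.le (by linarith) (norm_nonneg _) hε2pos.le
      _ = r := by rw [hε2]; field_simp
  have h4 : γ ∈ Φ := by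
    refine ⟨x0, hx0K, ?_⟩
    rw [hK, Set.mem_preimage, hA.equi, ← hq0, Metric.mem_closedBall, dist_eq_norm]
    exact h3
  have h5 : ‖aff (hol γ) - 1‖ ∈ S := ⟨γ, ⟨h4, hne⟩, rfl⟩
  have h6 : ‖aff (hol γ) - 1‖ ∈ Metric.ball (0 : ℝ) ε1 := by
    rw [Metric.mem_ball, dist_zero_right, norm_norm]
    exact h1
  exact hε1S h6 h5

end Pool.Agent.N713.RO
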